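import Pool.Agent.Helper56.CI.Final
import Pool.Agent.Helper56.GZ.Line

/-! # Complexity of the Borel chromatic index of acyclic regular Borel graphs

`B ⊆ 2^ℕ` is `Σ¹₂` (`IsSigma12`) if it is the projection of a coanalytic subset of `2^ℕ × ℕ^ℕ`.
`Codes c A` is the usual coding of Borel subsets `A` of `2^ℕ × 2^ℕ` by points `c` of `ℕ^ℕ` (well-founded trees of
complements and countable unions over the basic clopen sets).
`HasEdgeCol G j` says that there is a Borel map from the set of (ordered) edges of `G` to `j` colours which gives the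
two orientations of an edge the same colour and two different edges at a vertex different colours.
-/

set_option autoImplicit false

open MeasureTheory

namespace Pool.Agent.Results.MP_535960_lc.ChromaticIndexComplete

open Pool.Agent.Helper56.CI

/-- It is `Σ¹₂`-complete to distinguish Borel chromatic index `k` from `k + 1` on `Δ`-regular acyclic Borel graphs. -/
def DistinguishComplete (Δ k : ℕ) : Prop :=
  ∀ B : Set (ℕ → Bool), IsSigma12 B →
    ∃ f : (ℕ → Bool) → (ℕ → ℕ), Measurable f ∧ ∀ x, ∃ G : SimpleGraph (ℕ → Bool),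
      Codes (f x) {p | G.Adj p.1 p.2} ∧ G.IsAcyclic ∧ (∀ v, (G.neighborSet v).encard = Δ) ∧
      (x ∈ B → IsLeast {j | HasEdgeCol G j} k) ∧ (x ∉ B → IsLeast {j | HasEdgeCol G j} (k + 1))

/-- Let `Δ ≤ k ≤ 2Δ - 2`. It is `Σ¹₂`-complete to distinguish Borel chromatic index `k` from `k + 1` on `Δ`-regular
acyclic Borel graphs, for all such `Δ`, `k` with the single exception of `Δ = k = 2`. -/
theorem result (Δ k : ℕ) (hk : Δ ≤ k) (hk' : k + 2 ≤ 2 * Δ) : DistinguishComplete Δ k ↔ 3 ≤ Δ := by
  constructor
  · intro h
    by_contra h3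
    obtain rfl : Δ = 2 := by omega
    obtain rfl : k = 2 := by omega
    exact Pool.Agent.Helper56.GZ.not_distinguish h
  · intro h3 B hB
    exact main Δ k h3 hk (by omega) B hB

end Pool.Agent.Results.MP_535960_lc.ChromaticIndexComplete
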